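import Mathlib

/-!
Induced trees, average eccentricity and local independence.

For every positive real `c` and every natural `K` there is a finite connected graph `G` with
`tree(G) + K < ⌈ecc_avg(G) + c * max_v λ(v)⌉`.
-/

namespace Pool.Agent.Results.MP_e3442a_co.TreeEccGap

open SimpleGraph

/-- The largest number of vertices of an induced tree of `G`. -/
noncomputable def treeNum {V : Type} [Fintype V] (G : SimpleGraph V) : ℕ :=
  sSup {k | ∃ S : Finset V, (G.induce (S : Set V)).IsTree ∧ S.card = k}

/-- The eccentricity of `v`: the largest distance from `v` to a vertex of `G`. -/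
noncomputable def ecc {V : Type} [Fintype V] (G : SimpleGraph V) (v : V) : ℕ :=
  Finset.univ.sup (fun u => G.dist v u)

/-- The average eccentricity of `G`. -/
noncomputable def eccAvg {V : Type} [Fintype V] (G : SimpleGraph V) : ℝ :=
  (∑ v, (ecc G v : ℝ)) / (Fintype.card V : ℝ)

/-- The independence number of the subgraph induced by the open neighbourhood of `v`. -/
noncomputable def lam {V : Type} (G : SimpleGraph V) (v : V) : ℕ :=
  (G.induce (G.neighborSet v)).indepNum

/-- The maximum of `lam G v` over all vertices. -/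
noncomputable def maxLam {V : Type} [Fintype V] (G : SimpleGraph V) : ℕ :=
  Finset.univ.sup (fun v => lam G v)

/-! ### Level graphs -/

/-- The graph with a level function: adjacent levels are completely joined, the two extreme levels
`±r` are cliques, other levels are independent. -/
def LG {V : Type} (lev : V → ℤ) (r : ℕ) : SimpleGraph V where
  Adj u v := u ≠ v ∧ (|lev u - lev v| = 1 ∨ (lev u = lev v ∧ |lev u| = r))
  symm := ⟨fun u v h => by
    refine ⟨h.1.symm, ?_⟩
    rcases h.2 with h | h
    · left; rw [abs_sub_comm]; exact h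
    · right; exact ⟨h.1.symm, h.1 ▸ h.2⟩⟩
  loopless := ⟨fun u h => h.1 rfl⟩

lemma LG_adj {V : Type} (lev : V → ℤ) (r : ℕ) (u v : V) :
    (LG lev r).Adj u v ↔ u ≠ v ∧ (|lev u - lev v| = 1 ∨ (lev u = lev v ∧ |lev u| = r)) := Iff.rfl

lemma LG_neg {V : Type} (lev : V → ℤ) (r : ℕ) : LG (fun v => - lev v) r = LG lev r := by
  ext u v
  simp only [LG_adj, abs_neg, neg_inj]
  have : |(-lev u) - (-lev v)| = |lev u - lev v| := by
    rw [← abs_neg]; congr 1; ring
  rw [this]

/-- No 4-cycle in an acyclic graph. -/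
lemma no_c4 {W : Type} {H : SimpleGraph W} (hH : H.IsAcyclic) {x y z w : W}
    (hxy : H.Adj x y) (hyw : H.Adj y w) (hxz : H.Adj x z) (hzw : H.Adj z w)
    (hyz : y ≠ z) (hxw : x ≠ w) : False := by
  have h1 : (Walk.cons hxy (Walk.cons hyw Walk.nil)).IsPath := by
    simp [Walk.cons_isPath_iff, hxy.ne, hyw.ne, hxw]
  have h2 : (Walk.cons hxz (Walk.cons hzw Walk.nil)).IsPath := by
    simp [Walk.cons_isPath_iff, hxz.ne, hzw.ne, hxw]
  have h := (hH.subsingleton_path x w).elim ⟨_, h1⟩ ⟨_, h2⟩
  have h' := congrArg (fun p : H.Walk x w => p.support) (Subtype.ext_iff.mp h)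
  simp at h'
  exact hyz h'

/-- No triangle in an acyclic graph. -/
lemma no_c3 {W : Type} {H : SimpleGraph W} (hH : H.IsAcyclic) {x y z : W}
    (hxy : H.Adj x y) (hyz : H.Adj y z) (hxz : H.Adj x z) : False := by
  have h1 : (Walk.cons hxy (Walk.cons hyz Walk.nil)).IsPath := by
    simp [Walk.cons_isPath_iff, hxy.ne, hyz.ne, hxz.ne]
  have h2 : (Walk.cons hxz Walk.nil).IsPath := by
    simp [Walk.cons_isPath_iff, hxz.ne]
  have h := (hH.subsingleton_path x z).elim ⟨_, h1⟩ ⟨_, h2⟩
  have h' := congrArg (fun p : H.Walk x z => p.length) (Subtype.ext_iff.mp h)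
  simp at h'

/-- Discrete intermediate value property in a connected graph. -/
lemma level_ivt {W : Type} {H : SimpleGraph W} (hH : H.Connected) (f : W → ℤ)
    (hf : ∀ u v, H.Adj u v → |f u - f v| ≤ 1) (k : ℤ) (a b : W) (ha : f a < k) (hb : k < f b) :
    ∃ c, f c = k := by
  by_contra hcon
  push Not at hcon
  have key : ∀ u v : W, H.Reachable u v → f u < k → f v < k := by
    intro u v huv
    obtain ⟨p⟩ := huv
    induction p with
    | nil => exact id
    | cons h p ih =>
      intro hu
      apply ih
      have h1 := hf _ _ h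
      rw [abs_le] at h1
      rename_i x y z
      have h2 := hcon y
      omega
  have := key a b (hH.preconnected a b) ha
  omega

/-- The part of an induced tree on the positive side, when the centre level is met. -/
lemma side_bound {V : Type} [Fintype V] [DecidableEq V] (lev : V → ℤ) (r : ℕ) (hr : 2 ≤ r)
    (hle : ∀ v, lev v ≤ r)
    (huniq : ∀ u v, lev u = lev v → 2 ≤ lev u → lev u < r → u = v)
    (hone : (Finset.univ.filter (fun v => lev v = 1)).card ≤ r)
    (S : Finset V) (hS : ((LG lev r).induce (S : Set V)).IsTree)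
    (c : V) (hc : c ∈ S) (hc0 : lev c = 0) :
    (S.filter (fun v => 0 < lev v)).card ≤ r := by
  have hconn := hS.connected
  have hac := hS.isAcyclic
  have hstep : ∀ u v : (S : Set V), ((LG lev r).induce (S : Set V)).Adj u v →
      |lev u.1 - lev v.1| ≤ 1 := by
    intro u v huv
    have h := (LG_adj lev r u.1 v.1).mp huv
    rcases h.2 with h | h
    · omega
    · rw [h.1]; simp
  have hivt : ∀ k : ℤ, 0 < k → ∀ b ∈ S, k < lev b → ∃ d ∈ S, lev d = k := by
    intro k hk b hb hkb
    obtain ⟨d, hd⟩ := level_ivt hconn (fun v : (S : Set V) => lev v.1) hstep k ⟨c, hc⟩ ⟨b, hb⟩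
      (by simp [hc0, hk]) hkb
    exact ⟨d.1, d.2, hd⟩
  by_cases h2 : ∃ y z, y ∈ S ∧ z ∈ S ∧ y ≠ z ∧ lev y = 1 ∧ lev z = 1
  · obtain ⟨y, z, hy, hz, hyz, hy1, hz1⟩ := h2
    -- then nothing of level at least two
    have hno : ∀ b ∈ S, ¬ (1 < lev b) := by
      intro b hb hb1
      obtain ⟨w, hw, hw2⟩ : ∃ w ∈ S, lev w = 2 := by
        by_cases h : lev b = 2
        · exact ⟨b, hb, h⟩
        · exact hivt 2 (by norm_num) b hb (by omega)
      have e1 : ((LG lev r).induce (S : Set V)).Adj ⟨c, hc⟩ ⟨y, hy⟩ := by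
        show (LG lev r).Adj c y
        rw [LG_adj]; refine ⟨?_, Or.inl ?_⟩
        · rintro rfl; omega
        · rw [hc0, hy1]; norm_num
      have e2 : ((LG lev r).induce (S : Set V)).Adj ⟨y, hy⟩ ⟨w, hw⟩ := by
        show (LG lev r).Adj y w
        rw [LG_adj]; refine ⟨?_, Or.inl ?_⟩
        · rintro rfl; omega
        · rw [hy1, hw2]; norm_num
      have e3 : ((LG lev r).induce (S : Set V)).Adj ⟨c, hc⟩ ⟨z, hz⟩ := by
        show (LG lev r).Adj c z
        rw [LG_adj]; refine ⟨?_, Or.inl ?_⟩
        · rintro rfl; omega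
        · rw [hc0, hz1]; norm_num
      have e4 : ((LG lev r).induce (S : Set V)).Adj ⟨z, hz⟩ ⟨w, hw⟩ := by
        show (LG lev r).Adj z w
        rw [LG_adj]; refine ⟨?_, Or.inl ?_⟩
        · rintro rfl; omega
        · rw [hz1, hw2]; norm_num
      refine no_c4 hac e1 e2 e3 e4 ?_ ?_
      · intro h; exact hyz (Subtype.ext_iff.mp h)
      · intro h; have := Subtype.ext_iff.mp h; simp at this; subst this; omega
    refine le_trans (Finset.card_le_card ?_) hone
    intro v hv
    simp only [Finset.mem_filter, Finset.mem_univ, true_and] at hv ⊢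
    have := hno v hv.1
    omega
  · push Not at h2
    -- all positive levels carry at most one vertex of `S`
    have hinj : Set.InjOn (fun v => (lev v).toNat) (S.filter (fun v => 0 < lev v)) := by
      intro u hu v hv huv
      simp only [Finset.coe_filter, Set.mem_ofPred_eq] at hu hv
      have hlev : lev u = lev v := by
        simp only at huv; omega
      by_contra hne
      by_cases h1 : lev u = 1
      · exact h2 u v hu.1 hv.1 hne h1 (by omega)
      · by_cases hrr : lev u < r
        · exact hne (huniq u v hlev (by omega) hrr)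
        · have hur : lev u = r := le_antisymm (hle u) (by omega)
          obtain ⟨w, hw, hw1⟩ := hivt (r - 1) (by omega) u hu.1 (by omega)
          have e1 : ((LG lev r).induce (S : Set V)).Adj ⟨w, hw⟩ ⟨u, hu.1⟩ := by
            show (LG lev r).Adj w u
            rw [LG_adj]; refine ⟨?_, Or.inl ?_⟩
            · rintro rfl; omega
            · rw [hw1, hur, abs_sub_comm]; simp
          have e2 : ((LG lev r).induce (S : Set V)).Adj ⟨w, hw⟩ ⟨v, hv.1⟩ := by
            show (LG lev r).Adj w v
            rw [LG_adj]; refine ⟨?_, Or.inl ?_⟩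
            · rintro rfl; omega
            · rw [hw1, ← hlev, hur, abs_sub_comm]; simp
          have e3 : ((LG lev r).induce (S : Set V)).Adj ⟨u, hu.1⟩ ⟨v, hv.1⟩ := by
            show (LG lev r).Adj u v
            rw [LG_adj]; refine ⟨hne, Or.inr ⟨hlev, ?_⟩⟩
            rw [hur]; simp
          exact no_c3 hac e1 e3 e2
    have hmaps : ∀ v ∈ S.filter (fun v => 0 < lev v), (lev v).toNat ∈ Finset.Icc 1 r := by
      intro v hv
      simp only [Finset.mem_filter] at hv
      have := hle v
      simp only [Finset.mem_Icc]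
      omega
    have := Finset.card_le_card_of_injOn _ hmaps hinj
    simpa using this

/-- An induced tree avoiding the centre level and lying on the positive side. -/
lemma side_only_bound {V : Type} [Fintype V] [DecidableEq V] (lev : V → ℤ) (r : ℕ) (hr : 2 ≤ r)
    (hle : ∀ v, lev v ≤ r)
    (huniq : ∀ u v, lev u = lev v → 2 ≤ lev u → lev u < r → u = v)
    (hone : (Finset.univ.filter (fun v => lev v = 1)).card ≤ r)
    (S : Finset V) (hS : ((LG lev r).induce (S : Set V)).IsTree)
    (hpos : ∀ v ∈ S, 0 < lev v) :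
    S.card ≤ 2 * r := by
  have hac := hS.isAcyclic
  have hsplit : S = (S.filter (fun v => lev v = 1)) ∪ (S.filter (fun v => 1 < lev v ∧ lev v < r))
      ∪ (S.filter (fun v => lev v = r)) := by
    ext v
    simp only [Finset.mem_union, Finset.mem_filter]
    constructor
    · intro hv
      have h1 := hpos v hv
      have h2 := hle v
      by_cases h3 : lev v = 1
      · left; left; exact ⟨hv, h3⟩
      · by_cases h4 : lev v = r
        · right; exact ⟨hv, h4⟩
        · left; right; exact ⟨hv, by omega, by omega⟩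
    · rintro ((h | h) | h) <;> exact h.1
  have c1 : (S.filter (fun v => lev v = 1)).card ≤ r := by
    refine le_trans (Finset.card_le_card ?_) hone
    intro v hv
    simp only [Finset.mem_filter, Finset.mem_univ, true_and] at hv ⊢
    exact hv.2
  have c2 : (S.filter (fun v => 1 < lev v ∧ lev v < r)).card ≤ r - 2 := by
    have hmaps : ∀ v ∈ S.filter (fun v => 1 < lev v ∧ lev v < r),
        (lev v).toNat ∈ Finset.Ico 2 r := by
      intro v hv
      simp only [Finset.mem_filter] at hv
      simp only [Finset.mem_Ico]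
      omega
    have hinj : Set.InjOn (fun v => (lev v).toNat)
        (S.filter (fun v => 1 < lev v ∧ lev v < r)) := by
      intro u hu v hv huv
      simp only [Finset.coe_filter, Set.mem_ofPred_eq] at hu hv
      have hlev : lev u = lev v := by
        simp only at huv; omega
      exact huniq u v hlev (by omega) (by omega)
    have := Finset.card_le_card_of_injOn _ hmaps hinj
    simpa using this
  have c3 : (S.filter (fun v => lev v = r)).card ≤ 2 := by
    by_contra hcon
    push Not at hcon
    obtain ⟨x, y, z, hx, hy, hz, hxy, hxz, hyz⟩ := Finset.two_lt_card_iff.mp hcon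
    simp only [Finset.mem_filter] at hx hy hz
    have adj : ∀ (u v : V) (hu : u ∈ S) (hv : v ∈ S), lev u = r → lev v = r → u ≠ v →
        ((LG lev r).induce (S : Set V)).Adj ⟨u, hu⟩ ⟨v, hv⟩ := by
      intro u v hu hv hur hvr huv
      show (LG lev r).Adj u v
      rw [LG_adj]
      refine ⟨huv, Or.inr ⟨by rw [hur, hvr], ?_⟩⟩
      rw [hur]; simp
    exact no_c3 hac (adj x y hx.1 hy.1 hx.2 hy.2 hxy) (adj y z hy.1 hz.1 hy.2 hz.2 hyz)
      (adj x z hx.1 hz.1 hx.2 hz.2 hxz)
  have h1 := Finset.card_union_le ((S.filter (fun v => lev v = 1)) ∪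
    (S.filter (fun v => 1 < lev v ∧ lev v < r))) (S.filter (fun v => lev v = r))
  have h2 := Finset.card_union_le (S.filter (fun v => lev v = 1))
    (S.filter (fun v => 1 < lev v ∧ lev v < r))
  rw [← hsplit] at h1
  omega

/-- Upper bound for the order of an induced tree. -/
lemma tree_bound {V : Type} [Fintype V] [DecidableEq V] (lev : V → ℤ) (r : ℕ) (hr : 2 ≤ r)
    (hle : ∀ v, |lev v| ≤ r)
    (huniq : ∀ u v, lev u = lev v → |lev u| ≠ 1 → |lev u| < r → u = v)
    (hone : (Finset.univ.filter (fun v => lev v = 1)).card ≤ r)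
    (hone' : (Finset.univ.filter (fun v => lev v = -1)).card ≤ r)
    (S : Finset V) (hS : ((LG lev r).induce (S : Set V)).IsTree) :
    S.card ≤ 2 * r + 1 := by
  have hle1 : ∀ v, lev v ≤ r := fun v => (abs_le.mp (hle v)).2
  have hle2 : ∀ v, - lev v ≤ r := fun v => by have := (abs_le.mp (hle v)).1; omega
  have hu1 : ∀ u v, lev u = lev v → 2 ≤ lev u → lev u < r → u = v := by
    intro u v h h2 h3
    have : |lev u| = lev u := abs_of_pos (by omega)
    exact huniq u v h (by omega) (by omega)
  have hu2 : ∀ u v, - lev u = - lev v → 2 ≤ - lev u → - lev u < r → u = v := by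
    intro u v h h2 h3
    have : |lev u| = - lev u := abs_of_neg (by omega)
    exact huniq u v (by omega) (by omega) (by omega)
  have hone'' : (Finset.univ.filter (fun v => - lev v = 1)).card ≤ r := by
    refine le_trans (Finset.card_le_card ?_) hone'
    intro v hv
    simp only [Finset.mem_filter, Finset.mem_univ, true_and] at hv ⊢
    omega
  have hS' : ((LG (fun v => - lev v) r).induce (S : Set V)).IsTree := by
    rw [LG_neg]; exact hS
  by_cases hc : ∃ c ∈ S, lev c = 0
  · obtain ⟨c, hc, hc0⟩ := hc
    have b1 := side_bound lev r hr hle1 hu1 hone S hS c hc hc0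
    have b2 := side_bound (fun v => - lev v) r hr hle2 hu2 hone'' S hS' c hc (by simp [hc0])
    have b0 : (S.filter (fun v => lev v = 0)).card ≤ 1 := by
      rw [Finset.card_le_one]
      intro u hu v hv
      simp only [Finset.mem_filter] at hu hv
      exact huniq u v (by rw [hu.2, hv.2]) (by rw [hu.2]; simp) (by rw [hu.2]; simp; omega)
    have hsplit : S = (S.filter (fun v => 0 < lev v)) ∪ (S.filter (fun v => 0 < - lev v))
        ∪ (S.filter (fun v => lev v = 0)) := by
      ext v
      simp only [Finset.mem_union, Finset.mem_filter]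
      constructor
      · intro hv
        rcases lt_trichotomy (lev v) 0 with h | h | h
        · left; right; exact ⟨hv, by omega⟩
        · right; exact ⟨hv, h⟩
        · left; left; exact ⟨hv, h⟩
      · rintro ((h | h) | h) <;> exact h.1
    have h1 := Finset.card_union_le ((S.filter (fun v => 0 < lev v)) ∪
      (S.filter (fun v => 0 < - lev v))) (S.filter (fun v => lev v = 0))
    have h2 := Finset.card_union_le (S.filter (fun v => 0 < lev v))
      (S.filter (fun v => 0 < - lev v))
    rw [← hsplit] at h1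
    omega
  · push Not at hc
    have hconn := hS.connected
    have hstep : ∀ u v : (S : Set V), ((LG lev r).induce (S : Set V)).Adj u v →
        |lev u.1 - lev v.1| ≤ 1 := by
      intro u v huv
      have h := (LG_adj lev r u.1 v.1).mp huv
      rcases h.2 with h | h
      · omega
      · rw [h.1]; simp
    have hside : (∀ v ∈ S, 0 < lev v) ∨ (∀ v ∈ S, 0 < - lev v) := by
      by_contra hcon
      push Not at hcon
      obtain ⟨⟨a, ha, ha'⟩, ⟨b, hb, hb'⟩⟩ := hcon
      have h1 := hc a ha
      have h2 := hc b hb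
      obtain ⟨d, hd⟩ := level_ivt hconn (fun v : (S : Set V) => lev v.1) hstep 0 ⟨a, ha⟩ ⟨b, hb⟩
        (by simp; omega) (by simp; omega)
      exact hc d.1 d.2 hd
    rcases hside with h | h
    · have := side_only_bound lev r hr hle1 hu1 hone S hS h
      omega
    · have := side_only_bound (fun v => - lev v) r hr hle2 hu2 hone'' S hS' h
      omega

/-! ### The vertex set -/

/-- Number of vertices on the level with index `z` (levels `0, ..., 2r`, the centre is level `r`). -/
def mult (r N z : ℕ) : ℕ := if z = 0 ∨ z = 2 * r then N else if z + 1 = r ∨ z = r + 1 then r else 1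

/-- The vertices: pairs of a level and an index. -/
abbrev Vx (r N : ℕ) : Type := (z : Fin (2 * r + 1)) × Fin (mult r N z.val)

/-- The signed level. -/
def sl (r N : ℕ) (v : Vx r N) : ℤ := (v.1.val : ℤ) - r

lemma sl_abs_le (r N : ℕ) (v : Vx r N) : |sl r N v| ≤ r := by
  have := v.1.isLt
  unfold sl
  rw [abs_le]
  omega

lemma mult_pos (r N z : ℕ) (hr : 2 ≤ r) (hN : 1 ≤ N) : 0 < mult r N z := by
  unfold mult
  split_ifs <;> omega

lemma exists_level (r N : ℕ) (hr : 2 ≤ r) (hN : 1 ≤ N) (k : ℤ) (hk : |k| ≤ r) :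
    ∃ v : Vx r N, sl r N v = k := by
  rw [abs_le] at hk
  have h : (k + r).toNat < 2 * r + 1 := by omega
  refine ⟨⟨⟨(k + r).toNat, h⟩, ⟨0, mult_pos r N _ hr hN⟩⟩, ?_⟩
  simp only [sl]
  omega

lemma sl_unique (r N : ℕ) (hr : 2 ≤ r) (u v : Vx r N) (h : sl r N u = sl r N v)
    (h1 : |sl r N u| ≠ 1) (h2 : |sl r N u| < r) : u = v := by
  obtain ⟨z, i⟩ := u
  obtain ⟨w, j⟩ := v
  have hzw : z = w := by
    apply Fin.ext
    simp only [sl] at h
    omega
  subst hzw
  have hm : mult r N z.val = 1 := by
    simp only [sl] at h1 h2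
    rw [abs_lt] at h2
    unfold mult
    rw [if_neg (by omega), if_neg]
    rintro (h3 | h3)
    · apply h1; rw [abs_of_neg] <;> omega
    · apply h1; rw [abs_of_pos] <;> omega
  have : i = j := by
    apply Fin.ext
    have hi := i.isLt
    have hj := j.isLt
    omega
  rw [this]

lemma level_card (r N : ℕ) (_hr : 2 ≤ r) (k : ℤ) (hk : k = 1 ∨ k = -1) :
    (Finset.univ.filter (fun v : Vx r N => sl r N v = k)).card ≤ r := by
  have hmaps : ∀ v ∈ Finset.univ.filter (fun v : Vx r N => sl r N v = k),
      v.2.val ∈ Finset.range r := by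
    intro v hv
    simp only [Finset.mem_filter, Finset.mem_univ, true_and] at hv
    have h1 := v.2.isLt
    have hm : mult r N v.1.val = r := by
      simp only [sl] at hv
      unfold mult
      rw [if_neg (by omega), if_pos (by omega)]
    exact Finset.mem_range.mpr (by omega)
  have hinj : Set.InjOn (fun v : Vx r N => v.2.val)
      (Finset.univ.filter (fun v : Vx r N => sl r N v = k)) := by
    rintro ⟨z, i⟩ hu ⟨w, j⟩ hv huv
    simp only [Finset.coe_filter, Finset.mem_univ, true_and, Set.mem_ofPred_eq] at hu hv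
    have hzw : z = w := by
      apply Fin.ext
      simp only [sl] at hu hv
      omega
    subst hzw
    have : i = j := Fin.ext huv
    rw [this]
  have := Finset.card_le_card_of_injOn _ hmaps hinj
  simpa using this

/-- The counterexample graphs. -/
def GG (r N : ℕ) : SimpleGraph (Vx r N) := LG (sl r N) r

lemma GG_connected (r N : ℕ) (hr : 2 ≤ r) (hN : 1 ≤ N) : (GG r N).Connected := by
  obtain ⟨c, hc⟩ := exists_level r N hr hN 0 (by simp)
  have key : ∀ n : ℕ, ∀ v : Vx r N, (sl r N v).natAbs = n → (GG r N).Reachable v c := by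
    intro n
    induction n with
    | zero =>
      intro v hv
      have hv0 : sl r N v = 0 := by omega
      have : v = c := sl_unique r N hr v c (by rw [hv0, hc]) (by rw [hv0]; simp)
        (by rw [hv0]; simp; omega)
      rw [this]
    | succ n ih =>
      intro v hv
      have hb := abs_le.mp (sl_abs_le r N v)
      rcases lt_or_ge (sl r N v) 0 with h | h
      · obtain ⟨w, hw⟩ := exists_level r N hr hN (sl r N v + 1) (by rw [abs_le]; omega)
        have hadj : (GG r N).Adj v w := by
          refine (LG_adj _ _ _ _).mpr ⟨?_, Or.inl ?_⟩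
          · rintro rfl; omega
          · rw [hw]; rw [abs_sub_comm]; simp
        exact hadj.reachable.trans (ih w (by omega))
      · obtain ⟨w, hw⟩ := exists_level r N hr hN (sl r N v - 1) (by rw [abs_le]; omega)
        have hadj : (GG r N).Adj v w := by
          refine (LG_adj _ _ _ _).mpr ⟨?_, Or.inl ?_⟩
          · rintro rfl; omega
          · rw [hw]; simp
        exact hadj.reachable.trans (ih w (by omega))
  have : Nonempty (Vx r N) := ⟨c⟩
  exact ⟨fun u v => (key _ u rfl).trans (key _ v rfl).symm⟩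

lemma walk_level (r N : ℕ) {u v : Vx r N} (p : (GG r N).Walk u v) :
    |sl r N u - sl r N v| ≤ p.length := by
  induction p with
  | nil => simp
  | @cons a b c h p ih =>
    have h' := (LG_adj _ _ _ _).mp h
    have h1 : |sl r N a - sl r N b| ≤ 1 := by
      rcases h'.2 with h2 | h2
      · omega
      · rw [h2.1]; simp
    rw [Walk.length_cons]
    rw [abs_le] at *
    push_cast
    omega

lemma dist_level (r N : ℕ) (hr : 2 ≤ r) (hN : 1 ≤ N) (u v : Vx r N) :
    |sl r N u - sl r N v| ≤ (GG r N).dist u v := by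
  obtain ⟨p, hp⟩ := ((GG_connected r N hr hN).preconnected u v).exists_walk_length_eq_dist
  rw [← hp]
  exact walk_level r N p

lemma ecc_extreme (r N : ℕ) (hr : 2 ≤ r) (hN : 1 ≤ N) (u : Vx r N)
    (hu : sl r N u = r ∨ sl r N u = -r) : 2 * r ≤ ecc (GG r N) u := by
  obtain ⟨v, hv⟩ := exists_level r N hr hN (- sl r N u) (by rw [abs_neg]; exact sl_abs_le r N u)
  have h := dist_level r N hr hN u v
  rw [hv] at h
  have h2 : (GG r N).dist u v ≤ ecc (GG r N) u := by
    unfold ecc
    exact Finset.le_sup (f := fun w => (GG r N).dist u w) (Finset.mem_univ v)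
  rw [abs_le] at h
  omega

lemma card_upper (r N : ℕ) (hr : 2 ≤ r) :
    Fintype.card (Vx r N) ≤ 2 * N + (2 * r + 1) * r := by
  rw [Fintype.card_sigma]
  simp only [Fintype.card_fin]
  rw [Fin.sum_univ_eq_sum_range (fun z => mult r N z) (2 * r + 1)]
  rw [Finset.sum_range_succ, Finset.sum_range_eq_add_Ico _ (by omega)]
  have h0 : mult r N 0 = N := by simp [mult]
  have h1 : mult r N (2 * r) = N := by simp [mult]
  rw [h0, h1]
  have h2 : ∑ z ∈ Finset.Ico 1 (2 * r), mult r N z ≤ ∑ z ∈ Finset.Ico 1 (2 * r), r := by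
    apply Finset.sum_le_sum
    intro z hz
    simp only [Finset.mem_Ico] at hz
    unfold mult
    split_ifs <;> omega
  have h3 : ∑ z ∈ Finset.Ico 1 (2 * r), r ≤ (2 * r + 1) * r := by
    rw [Finset.sum_const, Nat.card_Ico, smul_eq_mul]
    exact Nat.mul_le_mul_right r (by omega)
  omega

lemma extreme_card (r N : ℕ) (hr : 2 ≤ r) :
    2 * N ≤ (Finset.univ.filter (fun v : Vx r N => sl r N v = r ∨ sl r N v = -r)).card := by
  have h0 : mult r N 0 = N := by simp [mult]
  have h1 : mult r N (2 * r) = N := by simp [mult]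
  let f : Bool × Fin N → Vx r N := fun x =>
    if x.1 then ⟨⟨0, by omega⟩, Fin.cast h0.symm x.2⟩ else ⟨⟨2 * r, by omega⟩, Fin.cast h1.symm x.2⟩
  have hf : Function.Injective f := by
    rintro ⟨a, i⟩ ⟨b, j⟩ h
    have hlev : (f (a, i)).1.val = (f (b, j)).1.val := by rw [h]
    have hidx : (f (a, i)).2.val = (f (b, j)).2.val := by rw [h]
    cases a <;> cases b <;> simp [f] at hlev hidx ⊢
    · exact Fin.ext hidx
    · omega
    · omega
    · exact Fin.ext hidx
  have hmem : ∀ x ∈ (Finset.univ : Finset (Bool × Fin N)), f x ∈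
      (Finset.univ.filter (fun v : Vx r N => sl r N v = r ∨ sl r N v = -r)) := by
    rintro ⟨a, i⟩ _
    simp only [Finset.mem_filter, Finset.mem_univ, true_and]
    cases a
    · left; simp [f, sl]; ring
    · right; simp [f, sl]
  have h := Finset.card_le_card_of_injOn f hmem hf.injOn
  simpa using h

lemma ecc_sum (r N : ℕ) (hr : 2 ≤ r) (hN : 1 ≤ N) :
    (2 * N) * (2 * r) ≤ ∑ v : Vx r N, ecc (GG r N) v := by
  calc (2 * N) * (2 * r) ≤
      (Finset.univ.filter (fun v : Vx r N => sl r N v = r ∨ sl r N v = -r)).card * (2 * r) :=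
        Nat.mul_le_mul_right _ (extreme_card r N hr)
    _ = (Finset.univ.filter (fun v : Vx r N => sl r N v = r ∨ sl r N v = -r)).card • (2 * r) := by
        rw [smul_eq_mul]
    _ ≤ ∑ v ∈ (Finset.univ.filter (fun v : Vx r N => sl r N v = r ∨ sl r N v = -r)),
          ecc (GG r N) v := by
        apply Finset.card_nsmul_le_sum
        intro v hv
        simp only [Finset.mem_filter, Finset.mem_univ, true_and] at hv
        exact ecc_extreme r N hr hN v hv
    _ ≤ ∑ v : Vx r N, ecc (GG r N) v :=
        Finset.sum_le_sum_of_subset (Finset.subset_univ _)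

lemma treeNum_le (r N : ℕ) (hr : 2 ≤ r) : treeNum (GG r N) ≤ 2 * r + 1 := by
  classical
  apply csSup_le'
  rintro k ⟨S, hS, rfl⟩
  exact tree_bound (sl r N) r hr (sl_abs_le r N)
    (fun u v h h1 h2 => sl_unique r N hr u v h h1 h2)
    (level_card r N hr 1 (Or.inl rfl)) (level_card r N hr (-1) (Or.inr rfl)) S hS

lemma le_maxLam (r N : ℕ) (hr : 2 ≤ r) (hN : 1 ≤ N) : 2 * r ≤ maxLam (GG r N) := by
  classical
  obtain ⟨c, hc⟩ := exists_level r N hr hN 0 (by simp)
  have h1 : lam (GG r N) c ≤ maxLam (GG r N) := by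
    unfold maxLam
    exact Finset.le_sup (f := fun v => lam (GG r N) v) (Finset.mem_univ c)
  refine le_trans ?_ h1
  unfold lam
  have hm1 : mult r N (r - 1) = r := by
    unfold mult
    by_cases h : r = 1
    · omega
    · rw [if_neg (by omega), if_pos (by omega)]
  have hm2 : mult r N (r + 1) = r := by
    unfold mult
    rw [if_neg (by omega), if_pos (by omega)]
  let f : Bool × Fin r → Vx r N := fun x =>
    if x.1 then ⟨⟨r - 1, by omega⟩, Fin.cast hm1.symm x.2⟩
    else ⟨⟨r + 1, by omega⟩, Fin.cast hm2.symm x.2⟩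
  have hf : Function.Injective f := by
    rintro ⟨a, i⟩ ⟨b, j⟩ h
    have hlev : (f (a, i)).1.val = (f (b, j)).1.val := by rw [h]
    have hidx : (f (a, i)).2.val = (f (b, j)).2.val := by rw [h]
    cases a <;> cases b <;> simp [f] at hlev hidx ⊢
    · exact Fin.ext hidx
    · omega
    · exact Fin.ext hidx
  have hlev : ∀ x, |sl r N (f x)| = 1 := by
    rintro ⟨a, i⟩
    cases a
    · simp [f, sl]
    · simp [f, sl]
      rw [Nat.cast_sub (by omega)]
      simp
  have hadj : ∀ x, (GG r N).Adj c (f x) := by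
    intro x
    refine (LG_adj _ _ _ _).mpr ⟨?_, Or.inl ?_⟩
    · intro h
      have := hlev x
      rw [← h, hc] at this
      simp at this
    · rw [hc, zero_sub, abs_neg]
      exact hlev x
  let g : Bool × Fin r → (GG r N).neighborSet c := fun x => ⟨f x, hadj x⟩
  have hg : Function.Injective g := by
    intro x y h
    exact hf (Subtype.ext_iff.mp h)
  have hind : ((GG r N).induce ((GG r N).neighborSet c)).IsIndepSet
      ((Finset.univ.map ⟨g, hg⟩ : Finset ((GG r N).neighborSet c)) :
        Set ((GG r N).neighborSet c)) := by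
    intro x hx y hy hxy hadj'
    simp only [Finset.coe_map, Function.Embedding.coeFn_mk, Finset.coe_univ, Set.image_univ,
      Set.mem_range] at hx hy
    obtain ⟨a, rfl⟩ := hx
    obtain ⟨b, rfl⟩ := hy
    have h3 : (GG r N).Adj (f a) (f b) := hadj'
    have h4 := (LG_adj _ _ _ _).mp h3
    have h5 := hlev a
    have h6 := hlev b
    rcases h4.2 with h7 | h7
    · rcases abs_eq (by norm_num : (0:ℤ) ≤ 1) |>.mp h5 with h8 | h8 <;>
      rcases abs_eq (by norm_num : (0:ℤ) ≤ 1) |>.mp h6 with h9 | h9 <;>
      rw [h8, h9] at h7 <;> norm_num at h7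
    · rw [h5] at h7
      have := h7.2
      omega
  have h := hind.card_le_indepNum
  simp only [Finset.card_map, Finset.card_univ, Fintype.card_prod, Fintype.card_bool,
    Fintype.card_fin] at h
  exact h

/-- For every positive real `c` and every natural number `K` there is a finite connected graph `G`
with `tree(G) + K < ⌈ecc_avg(G) + c * max_v λ(v)⌉`. -/
theorem result : ∀ c : ℝ, 0 < c → ∀ K : ℕ, ∃ (V : Type) (_ : Fintype V) (G : SimpleGraph V),
    G.Connected ∧ (treeNum G : ℤ) + K < ⌈eccAvg G + c * (maxLam G : ℝ)⌉ := by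
  intro c hc K
  obtain ⟨r0, hr0⟩ := exists_nat_gt (((K : ℝ) + 3) / (2 * c))
  set r := r0 + 2 with hrdef
  have hr : 2 ≤ r := by omega
  set N := (2 * r) * ((2 * r + 1) * r) with hNdef
  have hN : 1 ≤ N := by
    have : 0 < N := by positivity
    omega
  refine ⟨Vx r N, inferInstance, GG r N, GG_connected r N hr hN, ?_⟩
  have h1 : (treeNum (GG r N) : ℝ) ≤ 2 * r + 1 := by exact_mod_cast treeNum_le r N hr
  have h2 : (2 * r : ℝ) ≤ maxLam (GG r N) := by exact_mod_cast le_maxLam r N hr hN
  have h3 : (2 * N : ℝ) * (2 * r) ≤ ∑ v : Vx r N, (ecc (GG r N) v : ℝ) := by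
    exact_mod_cast ecc_sum r N hr hN
  have h4 : (Fintype.card (Vx r N) : ℝ) ≤ 2 * N + (2 * r + 1) * r := by
    exact_mod_cast card_upper r N hr
  have hNR : (N : ℝ) = (2 * r) * ((2 * r + 1) * r) := by
    rw [hNdef]; push_cast; ring
  have hrR : (2 : ℝ) ≤ r := by exact_mod_cast hr
  have hcard : (0 : ℝ) < Fintype.card (Vx r N) := by
    obtain ⟨v, _⟩ := exists_level r N hr hN 0 (by simp)
    have : 0 < Fintype.card (Vx r N) := Fintype.card_pos_iff.mpr ⟨v⟩
    exact_mod_cast this
  have h5 : (2 * r - 1 : ℝ) ≤ eccAvg (GG r N) := by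
    unfold eccAvg
    rw [le_div_iff₀ hcard]
    refine le_trans ?_ h3
    have h6 : (2 * r - 1 : ℝ) * (Fintype.card (Vx r N) : ℝ) ≤
        (2 * r - 1) * (2 * N + (2 * r + 1) * r) :=
      mul_le_mul_of_nonneg_left h4 (by linarith)
    refine le_trans h6 ?_
    have h7 : (0 : ℝ) ≤ (2 * r + 1) * r := by positivity
    nlinarith
  have h8 : (K : ℝ) + 3 ≤ c * maxLam (GG r N) := by
    have h9 : ((K : ℝ) + 3) / (2 * c) < r := by
      have : (r0 : ℝ) ≤ r := by rw [hrdef]; push_cast; linarith
      linarith
    rw [div_lt_iff₀ (by positivity)] at h9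
    have h10 : c * (2 * r : ℝ) ≤ c * maxLam (GG r N) := mul_le_mul_of_nonneg_left h2 hc.le
    linarith
  have h11 : ((treeNum (GG r N) : ℤ) + K : ℤ) < (⌈eccAvg (GG r N) + c * (maxLam (GG r N) : ℝ)⌉ : ℤ) := by
    rw [Int.lt_ceil]
    push_cast
    linarith
  exact h11

end Pool.Agent.Results.MP_e3442a_co.TreeEccGap
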